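import Pool.Agent.Helper13g.Seq
import Pool.Agent.H645R2.HT.Univ

/-!
# Growth of the solutions of Hindman's theorem: the combinatorial part (helper13)
-/

set_option autoImplicit false

namespace Pool.Agent.Helper13g

open Filter Pool.Agent.H645R2.HT Pool.Agent.TH747.HT Pool.Agent.TH747.HS
  Pool.Agent.Helper446 Pool.Agent.Helper446.RE

variable {S : ℕ → ℕ → ℕ → ℕ → Bool} {X : Set ℕ}

theorem main3 (hS : ∀ x, ∃ p, Tr S x p) (hX : X.Infinite) (h0 : 0 ∉ X)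
    (hc : ∃ i, ∀ F : Finset ℕ, (F : Set ℕ) ⊆ X → F.Nonempty → c3 (yy S) (∑ n ∈ F, n) = i)
    {F : Finset ℕ} (hF : (F : Set ℕ) ⊆ X) (hne : F.Nonempty) :
    ∃ p, Tr S (la (∑ n ∈ F, n)) p ∧ p ≤ mu (∑ n ∈ F, n) := by
  have hp : ∀ x ∈ X, 0 < x := fun x hx => Nat.pos_of_ne_zero fun h => h0 (h ▸ hx)
  obtain ⟨U, hU, hUX⟩ := exists_idem hX hp
  obtain ⟨i, hi⟩ := hc
  obtain ⟨b, hb1, hb2, hb3⟩ := yy_lim (hS (la (∑ n ∈ F, n)))
  refine ⟨b, hb1, lim_le (farU_idem hU) (yy_le S)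
    (Finset.sum_pos (fun i hi => hp i (hF hi)) hne) ?_ hb2 hb3⟩
  rw [Sm_idem hU (by omega)]
  filter_upwards [hUX F] with l hl
  obtain ⟨G, g1, g2, g3, rfl⟩ := hl
  rw [← Finset.sum_union g3, hi F hF hne]
  refine hi _ ?_ (hne.mono Finset.subset_union_left)
  rw [Finset.coe_union]
  exact Set.union_subset hF g2

theorem main4 (hS : ∀ x, ∃ p, Tr S x p) (h0 : 0 ∉ X) (hX : ∀ N, ∃ x ∈ X, 3 ^ N ∣ x)
    (hc : ∃ i, ∀ F : Finset ℕ, (F : Set ℕ) ⊆ X → F.Nonempty → F.card ≤ 4 →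
      c3 (yy S) (∑ n ∈ F, n) = i) {x : ℕ} (hx : x ∈ X) : ∃ p, Tr S (la x) p ∧ p ≤ mu x := by
  obtain ⟨V, hV, hVX⟩ := exists_farU h0 hX
  obtain ⟨i, hi⟩ := hc
  obtain ⟨b, hb1, hb2, hb3⟩ := yy_lim (hS (la x))
  refine ⟨b, hb1, lim_le hV (yy_le S) (Nat.pos_of_ne_zero fun h => h0 (h ▸ hx)) ?_ hb2 hb3⟩
  refine Sm_mono ?_ (Sm_mem hV hVX (k := 3) x)
  rintro l ⟨G, g1, g2, g3, rfl⟩
  have h4 : x ∉ G := fun h' => absurd (g3 x h') (lt_irrefl _)
  have e := Finset.sum_insert (f := fun x : ℕ => x) h4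
  have e2 : c3 (yy S) x = i := by
    have h5 := hi {x} (by simpa using hx) (Finset.singleton_nonempty x) (by simp)
    rwa [Finset.sum_singleton] at h5
  rw [← e, e2]
  refine hi _ ?_ (Finset.insert_nonempty _ _) ?_
  · rw [Finset.coe_insert]
    exact Set.insert_subset hx g1
  · rw [Finset.card_insert_of_notMem h4, g2]

theorem pow_mu_le {n : ℕ} (hn : 0 < n) : 3 ^ mu n ≤ n := by
  by_contra hc
  push Not at hc
  have h1 := mem_L.1 (mu_mem hn)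
  apply h1
  unfold dg
  rw [Nat.div_eq_of_lt hc]

/-- A sum of at most `N` of the first `N` elements which is divisible by `N`. -/
theorem exists_sum (hX : X.Infinite) {N : ℕ} (hN : 0 < N) :
    ∃ F : Finset ℕ, (F : Set ℕ) ⊆ X ∧ F.Nonempty ∧ N ∣ ∑ n ∈ F, n ∧
      ∑ n ∈ F, n ≤ N * Nat.nth (· ∈ X) (N - 1) := by
  have hm : StrictMono (Nat.nth (· ∈ X)) := Nat.nth_strictMono hX
  obtain ⟨i, hi, j, hj, hne, he⟩ := Finset.exists_ne_map_eq_of_card_lt_of_maps_to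
    (s := Finset.range (N + 1)) (t := Finset.range N)
    (f := fun i => (∑ j ∈ Finset.range i, Nat.nth (· ∈ X) j) % N) (by simp)
    (fun i _ => Finset.mem_coe.2 (Finset.mem_range.2 (Nat.mod_lt _ hN)))
  wlog hij : i < j generalizing i j
  · exact this j hj i hi hne.symm he.symm (by omega)
  rw [Finset.mem_range] at hi hj
  have hs : ∑ n ∈ (Finset.Ico i j).image (Nat.nth (· ∈ X)), n =
      ∑ k ∈ Finset.Ico i j, Nat.nth (· ∈ X) k :=
    Finset.sum_image fun a _ b _ h => hm.injective h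
  have hsum : ∑ k ∈ Finset.range j, Nat.nth (· ∈ X) k =
      ∑ k ∈ Finset.range i, Nat.nth (· ∈ X) k + ∑ k ∈ Finset.Ico i j, Nat.nth (· ∈ X) k :=
    (Finset.sum_range_add_sum_Ico _ hij.le).symm
  refine ⟨(Finset.Ico i j).image (Nat.nth (· ∈ X)), ?_, ?_, ?_, ?_⟩
  · intro x hx
    rw [Finset.coe_image] at hx
    obtain ⟨k, _, rfl⟩ := hx
    exact Nat.nth_mem_of_infinite hX k
  · rw [Finset.image_nonempty, Finset.nonempty_Ico]
    exact hij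
  · rw [hs]
    have h1 : (∑ k ∈ Finset.range i, Nat.nth (· ∈ X) k) % N =
      (∑ k ∈ Finset.range j, Nat.nth (· ∈ X) k) % N := he
    rw [hsum] at h1
    have h2 := (Nat.modEq_iff_dvd' (Nat.le_add_right _ _)).1 h1
    rwa [Nat.add_sub_cancel_left] at h2
  · rw [hs]
    calc ∑ k ∈ Finset.Ico i j, Nat.nth (· ∈ X) k
        ≤ ∑ _k ∈ Finset.Ico i j, Nat.nth (· ∈ X) (N - 1) := by
          refine Finset.sum_le_sum fun k hk => hm.monotone ?_
          rw [Finset.mem_Ico] at hk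
          omega
      _ = (j - i) * Nat.nth (· ∈ X) (N - 1) := by
          rw [Finset.sum_const, Nat.card_Ico, smul_eq_mul]
      _ ≤ N * Nat.nth (· ∈ X) (N - 1) := Nat.mul_le_mul_right _ (by omega)

/-- **Growth.** -/
theorem grow3 (hS : ∀ x, ∃ p, Tr S x p) (hX : X.Infinite) (h0 : 0 ∉ X)
    (hc : ∃ i, ∀ F : Finset ℕ, (F : Set ℕ) ⊆ X → F.Nonempty → c3 (yy S) (∑ n ∈ F, n) = i)
    {f : ℕ → ℕ} {M n : ℕ} (hf : ∀ x p, M ≤ x → n < 3 ^ (x + 1) → Tr S x p → x + f n ≤ p)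
    (hn : 3 ^ M ≤ n + 1) : 3 ^ f n ≤ Nat.nth (· ∈ X) n := by
  have hj1 : 3 ^ Nat.log 3 (n + 1) ≤ n + 1 := Nat.pow_log_le_self 3 (by omega)
  have hj2 : n + 1 < 3 ^ (Nat.log 3 (n + 1) + 1) := Nat.lt_pow_succ_log_self (by norm_num) _
  have hjM : M ≤ Nat.log 3 (n + 1) := (Nat.le_log_iff_pow_le (by norm_num) (by omega)).2 hn
  generalize Nat.log 3 (n + 1) = j at hj1 hj2 hjM
  obtain ⟨F, hF, hne, hdvd, hle⟩ := exists_sum hX (N := 3 ^ j) (by positivity)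
  have hp : ∀ x ∈ X, 0 < x := fun x hx => Nat.pos_of_ne_zero fun h => h0 (h ▸ hx)
  have hpos : 0 < ∑ n ∈ F, n := Finset.sum_pos (fun i hi => hp i (hF hi)) hne
  obtain ⟨p, hp1, hp2⟩ := main3 hS hX h0 hc hF hne
  have hx : j ≤ la (∑ n ∈ F, n) := le_la_of_dvd hpos hdvd
  have h1 := hf _ p (hjM.trans hx) (lt_of_lt_of_le (by omega : n < 3 ^ (j + 1))
    (Nat.pow_le_pow_right (by norm_num) (by omega))) hp1
  have h2 : 3 ^ (j + f n) ≤ 3 ^ j * Nat.nth (· ∈ X) (3 ^ j - 1) :=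
    (Nat.pow_le_pow_right (by norm_num) (by omega)).trans ((pow_mu_le hpos).trans hle)
  rw [pow_add] at h2
  have h3 := Nat.le_of_mul_le_mul_left h2 (by positivity)
  exact h3.trans ((Nat.nth_strictMono hX).monotone (by omega))

theorem la_inj (h0 : 0 ∉ X) (hb : ∃ i, ∀ F : Finset ℕ, (F : Set ℕ) ⊆ X → F.Nonempty →
    F.card ≤ 2 → dg (la (∑ n ∈ F, n)) (∑ n ∈ F, n) = i) {x y : ℕ} (hx : x ∈ X) (hy : y ∈ X)
    (hxy : x ≠ y) : la x ≠ la y := by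
  intro h
  obtain ⟨i, hb⟩ := hb
  have hp : ∀ x ∈ X, 0 < x := fun x hx => Nat.pos_of_ne_zero fun h => h0 (h ▸ hx)
  have h1 := hb {x} (by simpa using hx) (Finset.singleton_nonempty x) (by simp)
  have h2 := hb {y} (by simpa using hy) (Finset.singleton_nonempty y) (by simp)
  have h3 := hb {x, y} (by
    intro z hz
    simp only [Finset.coe_insert, Finset.coe_singleton, Set.mem_insert_iff,
      Set.mem_singleton_iff] at hz
    rcases hz with rfl | rfl <;> assumption) (Finset.insert_nonempty _ _) (by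
      rw [Finset.card_pair hxy])
  rw [Finset.sum_singleton] at h1 h2
  rw [Finset.sum_pair hxy] at h3
  exact la_add_same (hp x hx) (hp y hy) h (h1.trans h2.symm) (h3.trans h1.symm)

/-- Among the first `N + 1` elements there is one whose lowest position is at least `N`. -/
theorem exists_la (hX : X.Infinite)
    (hinj : ∀ x ∈ X, ∀ y ∈ X, x ≠ y → la x ≠ la y) (N : ℕ) :
    ∃ k ≤ N, N ≤ la (Nat.nth (· ∈ X) k) := by
  have hm : StrictMono (Nat.nth (· ∈ X)) := Nat.nth_strictMono hX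
  by_contra hcon
  push Not at hcon
  obtain ⟨a, ha, b, hb, hne, he⟩ := Finset.exists_ne_map_eq_of_card_lt_of_maps_to
    (s := Finset.range (N + 1)) (t := Finset.range N)
    (f := fun k => la (Nat.nth (· ∈ X) k)) (by simp)
    (fun k hk => Finset.mem_coe.2 (Finset.mem_range.2 (hcon k (by
      have := Finset.mem_range.1 (Finset.mem_coe.1 hk)
      omega))))
  exact hinj _ (Nat.nth_mem_of_infinite hX a) _ (Nat.nth_mem_of_infinite hX b)
    (fun h => hne (hm.injective h)) he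

theorem exists_dvd (hX : X.Infinite)
    (hinj : ∀ x ∈ X, ∀ y ∈ X, x ≠ y → la x ≠ la y) (N : ℕ) : ∃ x ∈ X, 3 ^ N ∣ x := by
  obtain ⟨k, _, hk⟩ := exists_la hX hinj N
  exact ⟨Nat.nth (· ∈ X) k, Nat.nth_mem_of_infinite hX k,
    dvd_of_dg fun i hi => dg_of_lt_la (lt_of_lt_of_le hi hk)⟩

theorem grow_la (hX : X.Infinite) (h0 : 0 ∉ X) (hinj : ∀ x ∈ X, ∀ y ∈ X, x ≠ y → la x ≠ la y)
    (hm : ∀ x ∈ X, ∃ p, Tr S (la x) p ∧ p ≤ mu x) {f : ℕ → ℕ} {M n : ℕ}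
    (hf : ∀ x p, M ≤ x → n < 3 ^ (x + 1) → Tr S x p → x + f n ≤ p) (hn : M ≤ n) :
    3 ^ f n ≤ Nat.nth (· ∈ X) n := by
  obtain ⟨k, hk1, hk2⟩ := exists_la hX hinj n
  have hmem : Nat.nth (· ∈ X) k ∈ X := Nat.nth_mem_of_infinite hX k
  obtain ⟨p, hp1, hp2⟩ := hm _ hmem
  have h1 := hf _ p (hn.trans hk2) (lt_of_le_of_lt hk2 (lt_of_lt_of_le
    (Nat.lt_pow_self (n := la (Nat.nth (· ∈ X) k)) (by norm_num : 1 < 3))
    (Nat.pow_le_pow_right (by norm_num) (by omega)))) hp1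
  calc 3 ^ f n ≤ 3 ^ mu (Nat.nth (· ∈ X) k) := Nat.pow_le_pow_right (by norm_num) (by omega)
    _ ≤ Nat.nth (· ∈ X) k := pow_mu_le (Nat.pos_of_ne_zero fun h => h0 (h ▸ hmem))
    _ ≤ Nat.nth (· ∈ X) n := (Nat.nth_strictMono hX).monotone hk1

/-- **Growth, sums of at most four elements.** -/
theorem grow4 (hS : ∀ x, ∃ p, Tr S x p) (hX : X.Infinite) (h0 : 0 ∉ X)
    (hc : ∃ i, ∀ F : Finset ℕ, (F : Set ℕ) ⊆ X → F.Nonempty → F.card ≤ 4 →
      c3 (yy S) (∑ n ∈ F, n) = i)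
    (hb : ∃ i, ∀ F : Finset ℕ, (F : Set ℕ) ⊆ X → F.Nonempty → F.card ≤ 2 →
      dg (la (∑ n ∈ F, n)) (∑ n ∈ F, n) = i)
    {f : ℕ → ℕ} {M n : ℕ} (hf : ∀ x p, M ≤ x → n < 3 ^ (x + 1) → Tr S x p → x + f n ≤ p)
    (hn : M ≤ n) : 3 ^ f n ≤ Nat.nth (· ∈ X) n := by
  have hinj : ∀ x ∈ X, ∀ y ∈ X, x ≠ y → la x ≠ la y := fun x hx y hy hxy =>
    la_inj h0 hb hx hy hxy
  exact grow_la hX h0 hinj (fun x hx => main4 hS h0 (exists_dvd hX hinj) hc hx) hf hn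

end Pool.Agent.Helper13g
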