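import Pool.Agent.Helper13g.Search
import Pool.Agent.Y545.HM.St

/-!
# Growth of the solutions of Hindman's theorem: functions which bound the witness functions
compute the double jump (helper13)
-/

set_option autoImplicit false

namespace Pool.Agent.Helper13g

open Filter Pool.Agent.H645R2.HT Pool.Agent.Y545.HM
  Pool.Agent.Helper446 Pool.Agent.Helper446.RE Pool.Agent.Helper446.Oracle

theorem univ2 {R : ℕ → ℕ → ℕ → Bool}
    (hR : Computable fun q : ℕ × ℕ × ℕ => R q.1 q.2.1 q.2.2) :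
    ∃ e, ∀ n u, (∀ s, W0 s (Nat.pair e (Nat.pair n u)) = false) ↔ ∀ b, R n u b = true := by
  have h1 : REPred fun w : ℕ => ∃ b, R w.unpair.1 w.unpair.2 b = false := by
    refine RE.exN (p := fun (w : ℕ) b => R w.unpair.1 w.unpair.2 b = false) ?_
    refine RE.eq ?_ (by fun_prop)
    exact hR.comp (g := fun x : ℕ × ℕ => (x.1.unpair.1, x.1.unpair.2, x.2)) (by fun_prop)
  obtain ⟨e, he⟩ := univ_W0 h1
  refine ⟨e, fun n u => ?_⟩
  have h2 := he (Nat.pair n u)
  simp only [Nat.unpair_pair] at h2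
  rw [← not_iff_not]
  push Not
  simpa using h2.symm

theorem stab : ∃ e, ∀ z u, (∀ s, W0 s (Nat.pair e (Nat.pair z u)) = false) ↔
    ∀ t, (!(W0 t z) || W0 u z) = true := by
  refine univ2 (R := fun z u t => !(W0 t z) || W0 u z) ?_
  exact cor (cnot (c_W0.comp (g := fun q : ℕ × ℕ × ℕ => (q.2.2, q.1)) (by fun_prop)))
    (c_W0.comp (g := fun q : ℕ × ℕ × ℕ => (q.2.1, q.1)) (by fun_prop))

theorem major {A : Set ℕ} {G : ℕ → ℕ} (hG : Gr A G)
    (hw : ∀ e, ∃ N, ∀ n, N ≤ n → wit e n ≤ G n) {R : ℕ → ℕ → ℕ → Bool}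
    (hR : Computable fun q : ℕ × ℕ × ℕ => R q.1 q.2.1 q.2.2) :
    Dec A {n | ∃ a, ∀ b, R n a b = true} := by
  obtain ⟨e0, he0⟩ := stab
  obtain ⟨e1, he1⟩ := univ2 hR
  obtain ⟨N0, hN0⟩ := hw e0
  obtain ⟨N1, hN1⟩ := hw e1
  obtain ⟨G', hG'⟩ : ∃ G' : ℕ → ℕ, G' = fun n =>
    G n + ((Finset.range N0).sup (wit e0) + (Finset.range N1).sup (wit e1)) := ⟨_, rfl⟩
  have hgr : Gr A G' := by
    rw [hG']
    exact Gr.post (g := fun m : ℕ =>
      m + ((Finset.range N0).sup (wit e0) + (Finset.range N1).sup (wit e1))) (by fun_prop) hG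
  have b0 : ∀ n, wit e0 n ≤ G' n := by
    intro n
    rw [hG']
    rcases Nat.lt_or_ge n N0 with h | h
    · have := Finset.le_sup (f := wit e0) (Finset.mem_range.2 h)
      simp only
      omega
    · have := hN0 n h
      simp only
      omega
  have b1 : ∀ n, wit e1 n ≤ G' n := by
    intro n
    rw [hG']
    rcases Nat.lt_or_ge n N1 with h | h
    · have := Finset.le_sup (f := wit e1) (Finset.mem_range.2 h)
      simp only
      omega
    · have := hN1 n h
      simp only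
      omega
  have k0 : ∀ z t, W0 t z = true → W0 (G' z) z = true := by
    intro z t ht
    have hex : ∃ u, ∀ s, W0 s (Nat.pair e0 (Nat.pair z u)) = false :=
      ⟨t, (he0 z t).2 fun t' => by simp [ht]⟩
    have h1 := (he0 z (wit e0 z)).1 (wit_spec hex) t
    rw [ht] at h1
    exact mon_W0 _ _ _ (b0 z) (by simpa using h1)
  have key : ∀ n, (∃ a, ∀ b, R n a b = true) ↔ ∃ u, u < G' n + 1 ∧
      W0 (G' (Nat.pair e1 (Nat.pair n u))) (Nat.pair e1 (Nat.pair n u)) = false := by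
    intro n
    constructor
    · rintro ⟨a, ha⟩
      have h1 : ∀ s, W0 s (Nat.pair e1 (Nat.pair n (wit e1 n))) = false :=
        wit_spec ⟨a, (he1 n a).2 ha⟩
      exact ⟨wit e1 n, Nat.lt_succ_of_le (b1 n), h1 _⟩
    · rintro ⟨u, -, hu⟩
      refine ⟨u, (he1 n u).1 fun s => ?_⟩
      by_contra hc
      rw [Bool.not_eq_false] at hc
      rw [k0 _ s hc] at hu
      cases hu
  have hz : Computable fun x : ℕ × ℕ => Nat.pair e1 (Nat.pair x.1 x.2) := by fun_prop
  have hW : Gr A fun x : ℕ × ℕ => W0 (G' (Nat.pair e1 (Nat.pair x.1 x.2)))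
      (Nat.pair e1 (Nat.pair x.1 x.2)) :=
    Gr.post (g := fun q : ℕ × ℕ => W0 q.1 q.2) c_W0 ((hgr.pre hz).pair (Gr.of_comp hz))
  constructor
  · have h1 : REIn A fun n : ℕ => ∃ u, u < G' n + 1 ∧
        W0 (G' (Nat.pair e1 (Nat.pair n u))) (Nat.pair e1 (Nat.pair n u)) = false := by
      refine REIn.ex (S := fun (n u : ℕ) => u < G' n + 1 ∧
        W0 (G' (Nat.pair e1 (Nat.pair n u))) (Nat.pair e1 (Nat.pair n u)) = false) (REIn.and ?_ ?_)
      · exact re_gr (S := fun q : ℕ × ℕ => q.1 < q.2 + 1)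
          (REIn.of_re (RE.lt (by fun_prop) (by fun_prop)))
          ((Gr.of_comp Computable.snd).pair (hgr.pre (g := fun x : ℕ × ℕ => x.1) (by fun_prop)))
      · exact REIn.comp hW (f := fun x : ℕ × ℕ => (x, false)) (by fun_prop)
    exact h1.of_eq fun n => (key n).symm
  · have h1 : REIn A fun n : ℕ => ∃ M, G' n = M ∧ ∀ u < M + 1,
        W0 (G' (Nat.pair e1 (Nat.pair n u))) (Nat.pair e1 (Nat.pair n u)) = true := by
      refine REIn.ex (S := fun (n M : ℕ) => G' n = M ∧ ∀ u < M + 1,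
        W0 (G' (Nat.pair e1 (Nat.pair n u))) (Nat.pair e1 (Nat.pair n u)) = true)
        (REIn.and hgr ?_)
      refine REIn.all_lt (S := fun (x : ℕ × ℕ) (u : ℕ) =>
        W0 (G' (Nat.pair e1 (Nat.pair x.1 u))) (Nat.pair e1 (Nat.pair x.1 u)) = true)
        ?_ (f := fun x : ℕ × ℕ => x.2 + 1) (by fun_prop)
      exact REIn.comp hW (f := fun x : (ℕ × ℕ) × ℕ => ((x.1.1, x.2), true)) (by fun_prop)
    refine h1.of_eq fun n => ?_
    show _ ↔ ¬ ∃ a, ∀ b, R n a b = true
    rw [key]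
    constructor
    · rintro ⟨M, rfl, h2⟩ ⟨u, hu, h3⟩
      rw [h2 u hu] at h3
      cases h3
    · intro h2
      refine ⟨G' n, rfl, fun u hu => ?_⟩
      by_contra h3
      rw [Bool.not_eq_true] at h3
      exact h2 ⟨u, hu, h3⟩

end Pool.Agent.Helper13g
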