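import Pool.Agent.TH747.HS.ClusK
import Pool.Agent.TH747.HS.FS

/-!
# Growth of the solutions of Hindman's theorem: the number of clusters modulo 3 (helper13)
-/

set_option autoImplicit false

namespace Pool.Agent.Helper13g

open Filter Pool.Agent.H645R2.HT Pool.Agent.TH747.HT Pool.Agent.TH747.HS
  Pool.Agent.Helper446 Pool.Agent.Helper446.RE

theorem mem_gl' {y : ℕ → ℕ} {l : List ℕ} (hl : l.Pairwise (· < ·)) {v : ℕ} (h : v ∈ gl (mn y) l) :
    ∃ t, t ≤ l.getLastD 0 ∧ v = y t := by
  induction l with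
  | nil => simp [gl] at h
  | cons a l ih =>
    cases l with
    | nil => simp [gl] at h
    | cons b l =>
      have e : (a :: b :: l).getLastD 0 = (b :: l).getLastD 0 := by
        simp [List.getLastD_eq_getLast?, List.getLast?_cons_cons]
      simp only [gl, List.mem_cons] at h
      rw [List.pairwise_cons] at hl
      have hab := hl.1 b (by simp)
      rcases h with h | h
      · obtain ⟨t, h1, h2, h3⟩ := mn_mem (y := y) hab
        refine ⟨t, ?_, by rw [h, h3]⟩
        rw [e]
        refine h2.trans ?_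
        rw [List.getLastD_eq_getLast?, List.getLast?_eq_some_getLast (by simp : b :: l ≠ []),
          Option.getD_some]
        rcases List.mem_cons.1 (List.getLast_mem (by simp : b :: l ≠ [])) with h4 | h4
        · exact h4.ge
        · exact ((List.pairwise_cons.1 hl.2).1 _ h4).le
      · obtain ⟨t, h1, h2⟩ := ih hl.2 h
        exact ⟨t, by rw [e]; exact h1, h2⟩

theorem mem_wd' {y : ℕ → ℕ} {n v : ℕ} (h : v ∈ wd y n) : ∃ t, t ≤ mu n ∧ v = y t :=
  mem_gl' (L_sorted n).pairwise h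

/-- Joining a word and a word with large letters. -/
theorem join_lt {u w : List ℕ} {g b : ℕ} (hg : g < b) (hw : ∀ v ∈ w, b ≤ v) (hb : b ∈ w) :
    cl [] (u ++ (g :: w)) = cl [] u + (if g ∈ rv [] u then 0 else 1) + (cl [b] w + 1) := by
  rw [cl_append]
  simp only [cl]
  have h1 : cl (g :: (rv [] u).filter (fun z => decide (z < g))) w = cl [] w := by
    refine cl_small w [] _ (g :: (rv [] u).filter (fun z => decide (z < g))) (by simp) ?_
    intro x hx y hy
    have h2 := hw y hy
    simp only [List.mem_cons, List.mem_filter, decide_eq_true_eq] at hx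
    omega
  have h3 := cl_merge w [] [b] b (by simp) (by simp) hw
  rw [if_pos hb] at h3
  rw [h1, h3]
  omega

/-- Joining along the smallest letter. -/
theorem join_eq {u w : List ℕ} {b : ℕ} (hw : ∀ v ∈ w, b ≤ v) :
    cl [] (u ++ (b :: w)) = cl [] u + (if b ∈ rv [] u then 0 else 1) + cl [b] w := by
  rw [cl_append]
  simp only [cl]
  have h1 : cl (b :: (rv [] u).filter (fun z => decide (z < b))) w = cl [b] w := by
    refine cl_small w [b] _ ((rv [] u).filter (fun z => decide (z < b))) ?_ ?_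
    · intro x
      simp
    · intro x hx y hy
      have h2 := hw y hy
      simp only [List.mem_filter, decide_eq_true_eq] at hx
      omega
  rw [h1]
  omega

/-- The colouring given by a family of sequences. -/
def c3 (Y : ℕ → ℕ → ℕ) (n : ℕ) : ℕ := ncl (Y (la n)) n % 3

variable {V : Ultrafilter ℕ}

/-- **The main relation.** If the colours of `h` and of `h + l` agree for typical sums `l` of three
elements, then the lower limit `b` is visible in the word of `h`, and no smaller value occurs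
later. -/
theorem rel3 (hV : FarU V) {Y : ℕ → ℕ → ℕ} {h : ℕ} (hh : 0 < h)
    (hc : Sm V 3 (fun l => c3 Y (h + l) = c3 Y h)) {b : ℕ}
    (h1 : ∀ N, ∃ t, N < t ∧ Y (la h) t = b) (h2 : ∃ N, ∀ t, N < t → b ≤ Y (la h) t) :
    (∀ t, mu h < t → b ≤ Y (la h) t) ∧ b ∈ rv [] (wd (Y (la h)) h) := by
  classical
  set y := Y (la h) with hy
  obtain ⟨g, hg1, hg2⟩ : ∃ g, (∀ t, mu h < t → g ≤ y t) ∧ ∃ t, mu h < t ∧ y t = g := by
    have hne : ∃ v, ∃ t, mu h < t ∧ y t = v := ⟨_, mu h + 1, by omega, rfl⟩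
    exact ⟨Nat.find hne, fun t ht => Nat.find_min' hne ⟨t, ht, rfl⟩, Nat.find_spec hne⟩
  obtain ⟨r, -, hr⟩ := exists_const (U := V) (fun n => cl [b] (wd y n) % 3) 3
    (Eventually.of_forall fun n => Nat.mod_lt _ (by omega))
  have h3 := cnt_fin hV h1 h2 hr 2
  obtain ⟨t0, ht0, hyt⟩ := hg2
  have h4 := Sm_far hV (k := 3) (by omega) (max t0 (mu h))
  obtain ⟨n, ⟨i1, i2, i3⟩, ⟨i4, i5⟩, i6⟩ := Sm_exists (Sm_and h3 (Sm_and h4 hc))
  have i3' := i3 (by omega)
  have hsep : Sep h n := by unfold Pool.Agent.H645R2.HT.Sep; omega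
  have hmn : mn y (mu h) (la n) = g := by
    refine le_antisymm ?_ ?_
    · rw [← hyt]; exact mn_le ht0 (by omega)
    · obtain ⟨t', h5, _, h6⟩ := mn_mem (y := y) hsep
      rw [h6]
      exact hg1 t' h5
  have hgb : g ≤ b := by
    obtain ⟨t, ht, ht'⟩ := h1 (mu h)
    rw [← ht']
    exact hg1 t ht
  have e1 : c3 Y (h + n) = cl [] (wd y h ++ (g :: wd y n)) % 3 := by
    unfold c3 ncl
    rw [la_add hh hsep, ← hy, wd_add hh i4 hsep, hmn]
  have e2 : c3 Y h = cl [] (wd y h) % 3 := rfl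
  rw [e1, e2] at i6
  have hr0 : cl [b] (wd y n) % 3 = 0 := by omega
  rcases hgb.lt_or_eq with h5 | h5
  · rw [join_lt h5 i1 i3'] at i6
    split_ifs at i6 <;> omega
  · subst h5
    refine ⟨hg1, ?_⟩
    rw [join_eq i1] at i6
    by_contra h6
    rw [if_neg h6] at i6
    omega

/-- The lower limit is at most `mu h`. -/
theorem lim_le (hV : FarU V) {Y : ℕ → ℕ → ℕ} (hY : ∀ x t, Y x t ≤ t) {h : ℕ} (hh : 0 < h)
    (hc : Sm V 3 (fun l => c3 Y (h + l) = c3 Y h)) {b : ℕ}
    (h1 : ∀ N, ∃ t, N < t ∧ Y (la h) t = b) (h2 : ∃ N, ∀ t, N < t → b ≤ Y (la h) t) :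
    b ≤ mu h := by
  rcases rv_sub (rel3 hV hh hc h1 h2).2 with h3 | h3
  · obtain ⟨t, ht, rfl⟩ := mem_wd' h3
    exact (hY _ _).trans ht
  · simp at h3

end Pool.Agent.Helper13g
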