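import Pool.Agent.Helper13g.Grow

/-!
# Growth of the solutions of Hindman's theorem: the two searches (helper13)
-/

set_option autoImplicit false

namespace Pool.Agent.Helper13g

open Encodable Filter Pool.Agent.H645R2.HT Pool.Agent.TH747.HT
  Pool.Agent.Helper446 Pool.Agent.Helper446.RE

theorem el_encode (l : List ℕ) (i : ℕ) : el (encode l) i = (l[i]?).getD 0 := by
  unfold el dl
  simp

theorem el_map (v : ℕ → ℕ) {M i : ℕ} (hi : i < M) :
    el (encode ((List.range M).map v)) i = v i := by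
  rw [el_encode]
  simp [List.getElem?_range hi]

/-! ### The values of a function with a `Σ⁰₃` graph -/

/-- The search for the values of `f` and the witnesses. -/
def SA (R : ℕ → ℕ → ℕ → ℕ → ℕ → Bool) (x p b t : ℕ) : Bool :=
  allB (fun n => decide (x + (el p.unpair.2 n).unpair.1 < p.unpair.1 + 1) &&
    exB (fun s => R n (el p.unpair.2 n).unpair.1 (el p.unpair.2 n).unpair.2 b s) t) (3 ^ (x + 1))

theorem SA_iff {R : ℕ → ℕ → ℕ → ℕ → ℕ → Bool} {x p b t : ℕ} : SA R x p b t = true ↔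
    ∀ n < 3 ^ (x + 1), x + (el p.unpair.2 n).unpair.1 < p.unpair.1 + 1 ∧
      ∃ s < t, R n (el p.unpair.2 n).unpair.1 (el p.unpair.2 n).unpair.2 b s = true := by
  unfold SA
  rw [allB_iff]
  simp only [Bool.and_eq_true, decide_eq_true_eq, exB_iff]

theorem c_SA {R : ℕ → ℕ → ℕ → ℕ → ℕ → Bool}
    (hR : Computable fun x : ℕ × ℕ × ℕ × ℕ × ℕ => R x.1 x.2.1 x.2.2.1 x.2.2.2.1 x.2.2.2.2) :
    Computable fun q : ℕ × ℕ × ℕ × ℕ => SA R q.1 q.2.1 q.2.2.1 q.2.2.2 := by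
  unfold SA
  have hel : Computable fun y : (ℕ × ℕ × ℕ × ℕ) × ℕ => el y.1.2.1.unpair.2 y.2 :=
    c_el (by fun_prop) (by fun_prop)
  refine computable_allB (α := ℕ × ℕ × ℕ × ℕ) (q := fun q n =>
    decide (q.1 + (el q.2.1.unpair.2 n).unpair.1 < q.2.1.unpair.1 + 1) &&
    exB (fun s => R n (el q.2.1.unpair.2 n).unpair.1 (el q.2.1.unpair.2 n).unpair.2 q.2.2.1 s)
      q.2.2.2) ?_ ?_
  · unfold Computable₂
    refine cand (c_dlt ?_ (by fun_prop)) ?_
    · exact Primrec.nat_add.to_comp.comp (by fun_prop)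
        ((Computable.fst.comp Computable.unpair).comp hel)
    · refine computable_exB (α := (ℕ × ℕ × ℕ × ℕ) × ℕ) (q := fun y s =>
        R y.2 (el y.1.2.1.unpair.2 y.2).unpair.1 (el y.1.2.1.unpair.2 y.2).unpair.2 y.1.2.2.1 s)
        ?_ (by fun_prop)
      unfold Computable₂
      have h1 : Computable fun z : ((ℕ × ℕ × ℕ × ℕ) × ℕ) × ℕ =>
          (el z.1.1.2.1.unpair.2 z.1.2).unpair :=
        Computable.unpair.comp (hel.comp Computable.fst)
      refine hR.comp (g := fun z : ((ℕ × ℕ × ℕ × ℕ) × ℕ) × ℕ => (z.1.2,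
        (el z.1.1.2.1.unpair.2 z.1.2).unpair.1, (el z.1.1.2.1.unpair.2 z.1.2).unpair.2,
        z.1.1.2.2.1, z.2)) ?_
      exact Computable.pair (by fun_prop) (Computable.pair (Computable.fst.comp h1)
        (Computable.pair (Computable.snd.comp h1) (by fun_prop)))
  · exact c_pow3 (by fun_prop)

variable {f : ℕ → ℕ} {R : ℕ → ℕ → ℕ → ℕ → ℕ → Bool}

theorem SA_exists (hf : ∀ n m, f n = m ↔ ∃ a, ∀ b, ∃ t, R n m a b t = true) (x : ℕ) :
    ∃ p, Tr (SA R) x p := by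
  have h1 : ∀ n, ∃ a, ∀ b, ∃ t, R n (f n) a b t = true := fun n => (hf n _).1 rfl
  choose a ha using h1
  refine ⟨Nat.pair (x + (Finset.range (3 ^ (x + 1))).sup f)
    (encode ((List.range (3 ^ (x + 1))).map fun n => Nat.pair (f n) (a n))), fun b => ?_⟩
  choose s hs using fun n => ha n b
  refine ⟨(Finset.range (3 ^ (x + 1))).sup s + 1, ?_⟩
  rw [SA_iff]
  intro n hn
  rw [Nat.unpair_pair]
  simp only
  rw [el_map _ hn, Nat.unpair_pair]
  simp only
  have h2 := Finset.le_sup (f := f) (Finset.mem_range.2 hn)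
  have h3 := Finset.le_sup (f := s) (Finset.mem_range.2 hn)
  exact ⟨by omega, s n, by omega, hs n⟩

theorem SA_bound (hf : ∀ n m, f n = m ↔ ∃ a, ∀ b, ∃ t, R n m a b t = true) {x p n : ℕ}
    (hn : n < 3 ^ (x + 1)) (h : Tr (SA R) x p) : x + f n ≤ p := by
  have h1 : f n = (el p.unpair.2 n).unpair.1 := by
    rw [hf]
    refine ⟨(el p.unpair.2 n).unpair.2, fun b => ?_⟩
    obtain ⟨t, ht⟩ := h b
    rw [SA_iff] at ht
    obtain ⟨_, s, _, hs⟩ := ht n hn
    exact ⟨s, hs⟩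
  obtain ⟨t, ht⟩ := h 0
  rw [SA_iff] at ht
  have h2 := (ht n hn).1
  have h3 := Nat.unpair_left_le p
  omega

/-! ### Universal search for `Σ⁰₂` facts -/

/-- The universal search. -/
def SB (x p b t : ℕ) : Bool :=
  allB (fun k => decide (x + el p.unpair.2 k < p.unpair.1 + 1) &&
    bif decide (el p.unpair.2 k = 0)
    then W0 t (Nat.pair k.unpair.1 (Nat.pair k.unpair.2 b))
    else !(W0 b (Nat.pair k.unpair.1 (Nat.pair k.unpair.2 (el p.unpair.2 k - 1)))))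
    (Nat.pair x (3 ^ (x + 1)) + 1)

theorem SB_iff {x p b t : ℕ} : SB x p b t = true ↔ ∀ k < Nat.pair x (3 ^ (x + 1)) + 1,
    x + el p.unpair.2 k < p.unpair.1 + 1 ∧
    (el p.unpair.2 k = 0 → W0 t (Nat.pair k.unpair.1 (Nat.pair k.unpair.2 b)) = true) ∧
    (el p.unpair.2 k ≠ 0 →
      W0 b (Nat.pair k.unpair.1 (Nat.pair k.unpair.2 (el p.unpair.2 k - 1))) = false) := by
  unfold SB
  rw [allB_iff]
  refine forall_congr' fun k => imp_congr_right fun _ => ?_
  by_cases h : el p.unpair.2 k = 0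
  · simp [h]
  · simp [h]

theorem c_SB : Computable fun q : ℕ × ℕ × ℕ × ℕ => SB q.1 q.2.1 q.2.2.1 q.2.2.2 := by
  unfold SB
  have hel : Computable fun y : (ℕ × ℕ × ℕ × ℕ) × ℕ => el y.1.2.1.unpair.2 y.2 :=
    c_el (by fun_prop) (by fun_prop)
  refine computable_allB (α := ℕ × ℕ × ℕ × ℕ) (q := fun q k =>
    decide (q.1 + el q.2.1.unpair.2 k < q.2.1.unpair.1 + 1) &&
    bif decide (el q.2.1.unpair.2 k = 0)
    then W0 q.2.2.2 (Nat.pair k.unpair.1 (Nat.pair k.unpair.2 q.2.2.1))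
    else !(W0 q.2.2.1 (Nat.pair k.unpair.1 (Nat.pair k.unpair.2 (el q.2.1.unpair.2 k - 1)))))
    ?_ ?_
  · unfold Computable₂
    refine cand (c_dlt ?_ (by fun_prop)) (ccond (c_deq hel (by fun_prop)) ?_ (cnot ?_))
    · exact Primrec.nat_add.to_comp.comp (by fun_prop) hel
    · exact c_W0.comp (g := fun y : (ℕ × ℕ × ℕ × ℕ) × ℕ => (y.1.2.2.2,
        Nat.pair y.2.unpair.1 (Nat.pair y.2.unpair.2 y.1.2.2.1)))
        (Computable.pair (by fun_prop) (by fun_prop))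
    · have h1 : Computable fun y : (ℕ × ℕ × ℕ × ℕ) × ℕ => el y.1.2.1.unpair.2 y.2 - 1 :=
        Computable.pred.comp hel
      have h2 : Computable fun y : (ℕ × ℕ × ℕ × ℕ) × ℕ =>
          Nat.pair y.2.unpair.1 (Nat.pair y.2.unpair.2 (el y.1.2.1.unpair.2 y.2 - 1)) :=
        Primrec₂.natPair.to_comp.comp (by fun_prop)
          (Primrec₂.natPair.to_comp.comp (by fun_prop) h1)
      exact c_W0.comp (g := fun y : (ℕ × ℕ × ℕ × ℕ) × ℕ => (y.1.2.2.1,
        Nat.pair y.2.unpair.1 (Nat.pair y.2.unpair.2 (el y.1.2.1.unpair.2 y.2 - 1))))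
        (Computable.pair (by fun_prop) h2)
  · exact Computable.succ.comp (Primrec₂.natPair.to_comp.comp (by fun_prop) (c_pow3 (by fun_prop)))

theorem SB_exists (x : ℕ) : ∃ p, Tr SB x p := by
  classical
  have h1 : ∀ k : ℕ, ∃ v : ℕ,
      (v = 0 → ∀ u, ∃ t, W0 t (Nat.pair k.unpair.1 (Nat.pair k.unpair.2 u)) = true) ∧
      (v ≠ 0 → ∀ b, W0 b (Nat.pair k.unpair.1 (Nat.pair k.unpair.2 (v - 1))) = false) := by
    intro k
    by_cases h : ∃ u, ∀ b, W0 b (Nat.pair k.unpair.1 (Nat.pair k.unpair.2 u)) = false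
    · obtain ⟨u, hu⟩ := h
      exact ⟨u + 1, fun h => by omega, fun _ b => hu b⟩
    · push Not at h
      refine ⟨0, fun _ u => ?_, fun h => absurd rfl h⟩
      obtain ⟨b, hb⟩ := h u
      exact ⟨b, by simpa using hb⟩
  choose v hv1 hv2 using h1
  refine ⟨Nat.pair (x + (Finset.range (Nat.pair x (3 ^ (x + 1)) + 1)).sup v)
    (encode ((List.range (Nat.pair x (3 ^ (x + 1)) + 1)).map v)), fun b => ?_⟩
  have h2 : ∀ k : ℕ, ∃ t, v k = 0 →
      W0 t (Nat.pair k.unpair.1 (Nat.pair k.unpair.2 b)) = true := by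
    intro k
    by_cases h : v k = 0
    · obtain ⟨t, ht⟩ := hv1 k h b
      exact ⟨t, fun _ => ht⟩
    · exact ⟨0, fun h' => absurd h' h⟩
  choose s hs using h2
  refine ⟨(Finset.range (Nat.pair x (3 ^ (x + 1)) + 1)).sup s, ?_⟩
  rw [SB_iff]
  intro k hk
  rw [Nat.unpair_pair]
  simp only
  rw [el_map _ hk]
  have h3 := Finset.le_sup (f := s) (Finset.mem_range.2 hk)
  have h4 := Finset.le_sup (f := v) (Finset.mem_range.2 hk)
  exact ⟨by omega, fun h => mon_W0 _ _ _ h3 (hs k h), fun h => hv2 k h b⟩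

theorem SB_le {x p k : ℕ} (hk : k < Nat.pair x (3 ^ (x + 1)) + 1) (h : Tr SB x p) :
    x + el p.unpair.2 k ≤ p := by
  obtain ⟨t, ht⟩ := h 0
  rw [SB_iff] at ht
  have h5 := (ht _ hk).1
  have h6 := Nat.unpair_left_le p
  omega

theorem SB_wit {x p n e : ℕ} (hx : e ≤ x) (hn : n < 3 ^ (x + 1)) (h : Tr SB x p)
    (hex : ∃ u, ∀ s, W0 s (Nat.pair e (Nat.pair n u)) = false) :
    ∃ u, x + u ≤ p ∧ ∀ s, W0 s (Nat.pair e (Nat.pair n u)) = false := by
  have hk : Nat.pair e n < Nat.pair x (3 ^ (x + 1)) + 1 := by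
    have h2 : Nat.pair e n ≤ Nat.pair x n := by
      rcases hx.eq_or_lt with h3 | h3
      · rw [h3]
      · exact (Nat.pair_lt_pair_left n h3).le
    have h3 : Nat.pair x n ≤ Nat.pair x (3 ^ (x + 1)) := (Nat.pair_lt_pair_right x hn).le
    omega
  have hne : el p.unpair.2 (Nat.pair e n) ≠ 0 := by
    intro h2
    obtain ⟨u, hu⟩ := hex
    obtain ⟨t, ht⟩ := h u
    rw [SB_iff] at ht
    have h3 := (ht _ hk).2.1 h2
    rw [Nat.unpair_pair] at h3
    simp only at h3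
    rw [hu t] at h3
    cases h3
  have h6 := SB_le hk h
  refine ⟨el p.unpair.2 (Nat.pair e n) - 1, by omega, fun s => ?_⟩
  obtain ⟨t, ht⟩ := h s
  rw [SB_iff] at ht
  have h5 := (ht _ hk).2.2 hne
  rw [Nat.unpair_pair] at h5
  exact h5

open Classical in
/-- The least witness, or `0`. -/
noncomputable def wit (e n : ℕ) : ℕ :=
  if h : ∃ u, ∀ s, W0 s (Nat.pair e (Nat.pair n u)) = false then Nat.find h else 0

theorem wit_spec {e n : ℕ} (h : ∃ u, ∀ s, W0 s (Nat.pair e (Nat.pair n u)) = false) (s : ℕ) :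
    W0 s (Nat.pair e (Nat.pair n (wit e n))) = false := by
  classical
  unfold wit
  rw [dif_pos h]
  exact Nat.find_spec h s

theorem wit_bound {x p n e : ℕ} (hx : e ≤ x) (hn : n < 3 ^ (x + 1)) (h : Tr SB x p) :
    x + wit e n ≤ p := by
  classical
  unfold wit
  split_ifs with hex
  · obtain ⟨u, hu1, hu2⟩ := SB_wit hx hn h hex
    have := Nat.find_min' hex hu2
    omega
  · have := SB_le (k := 0) (by omega) h
    omega

/-- Functions with a `Σ⁰₂` graph are bounded by witness functions. -/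
theorem le_wit {g : ℕ → ℕ} {R : ℕ → ℕ → ℕ → ℕ → Bool}
    (hR : Computable fun x : ℕ × ℕ × ℕ × ℕ => R x.1 x.2.1 x.2.2.1 x.2.2.2)
    (hg : ∀ n m, g n = m ↔ ∃ a, ∀ b, R n m a b = true) : ∃ e, ∀ n, g n ≤ wit e n := by
  have h1 : REPred fun w : ℕ =>
      ∃ b, R w.unpair.1 w.unpair.2.unpair.1 w.unpair.2.unpair.2 b = false := by
    refine RE.exN (p := fun (w : ℕ) b =>
      R w.unpair.1 w.unpair.2.unpair.1 w.unpair.2.unpair.2 b = false) ?_
    refine RE.eq ?_ (by fun_prop)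
    exact hR.comp (g := fun x : ℕ × ℕ => (x.1.unpair.1, x.1.unpair.2.unpair.1,
      x.1.unpair.2.unpair.2, x.2)) (by fun_prop)
  obtain ⟨e, he⟩ := univ_W0 h1
  have key : ∀ n u, (∀ s, W0 s (Nat.pair e (Nat.pair n u)) = false) ↔
      ∀ b, R n u.unpair.1 u.unpair.2 b = true := by
    intro n u
    have h2 := he (Nat.pair n u)
    simp only [Nat.unpair_pair] at h2
    rw [← not_iff_not]
    push Not
    simpa using h2.symm
  refine ⟨e, fun n => ?_⟩
  obtain ⟨a, ha⟩ := (hg n (g n)).1 rfl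
  have h3 := (key n (wit e n)).1 (wit_spec ⟨Nat.pair (g n) a, (key n _).2 (by
    simpa [Nat.unpair_pair] using ha)⟩)
  rw [(hg n _).2 ⟨_, h3⟩]
  exact Nat.unpair_left_le _

end Pool.Agent.Helper13g
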