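import Pool.Agent.Helper13g.Rel
import Pool.Agent.TH747.HT.Pi3
import Pool.Agent.TH747.HT.Diag

/-!
# Growth of the solutions of Hindman's theorem: the sequences (helper13)
-/

set_option autoImplicit false

namespace Pool.Agent.Helper13g

open Filter Pool.Agent.H645R2.HT Pool.Agent.TH747.HT Pool.Agent.TH747.HS
  Pool.Agent.Helper446 Pool.Agent.Helper446.RE

/-- `p` is a true value for `x`. -/
def Tr (S : ℕ → ℕ → ℕ → ℕ → Bool) (x p : ℕ) : Prop := ∀ b, ∃ s, S x p b s = true

/-- The number of instances which have been verified before the stage `t`. -/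
def len (S : ℕ → ℕ → ℕ → ℕ → Bool) (x p t : ℕ) : ℕ :=
  lst (fun b => !(exB (fun s => S x p b s) t)) t

/-- The least `p` for which an instance is newly verified at the stage `t`. -/
def yy (S : ℕ → ℕ → ℕ → ℕ → Bool) (x t : ℕ) : ℕ :=
  lst (fun p => decide (len S x p (t - 1) < len S x p t)) t

variable {S : ℕ → ℕ → ℕ → ℕ → Bool} {x p : ℕ}

theorem lst_le (q : ℕ → Bool) (n : ℕ) : lst q n ≤ n := by
  rcases lst_spec q n with ⟨h, _⟩ | ⟨h, _⟩ <;> omega

theorem len_mono {s t : ℕ} (h : s ≤ t) : len S x p s ≤ len S x p t := by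
  unfold len
  rcases lst_spec (fun b => !(exB (fun s => S x p b s) t)) t with ⟨h1, h2, h3⟩ | ⟨h1, h2⟩
  · rcases Nat.lt_or_ge (lst (fun b => !(exB (fun s => S x p b s) t)) t) s with h4 | h4
    · refine (lst_lt_of h4 ?_).1
      simp only [Bool.not_eq_true'] at h2 ⊢
      rw [← Bool.not_eq_true, exB_iff] at h2 ⊢
      rintro ⟨i, hi, hi2⟩
      exact h2 ⟨i, by omega, hi2⟩
    · exact (lst_le _ _).trans h4
  · rw [h1]
    exact (lst_le _ _).trans h

theorem len_unbdd (h : Tr S x p) (N : ℕ) : ∃ t, N ≤ len S x p t := by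
  choose s hs using h
  refine ⟨(Finset.range N).sup s + N + 1, ?_⟩
  by_contra hc
  push Not at hc
  unfold len at hc
  rcases lst_spec (fun b => !(exB (fun s => S x p b s) ((Finset.range N).sup s + N + 1)))
    ((Finset.range N).sup s + N + 1) with ⟨h1, h2, h3⟩ | ⟨h1, h2⟩
  · simp only [Bool.not_eq_true'] at h2
    rw [← Bool.not_eq_true, exB_iff] at h2
    apply h2
    refine ⟨_, ?_, hs _⟩
    have h4 := Finset.le_sup (f := s) (Finset.mem_range.2 hc)
    omega
  · omega

theorem len_bdd (h : ¬ Tr S x p) : ∃ B, ∀ t, len S x p t ≤ B := by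
  unfold Tr at h
  push Not at h
  obtain ⟨b, hb⟩ := h
  refine ⟨b, fun t => ?_⟩
  by_contra hc
  push Not at hc
  unfold len at hc
  have h1 := lst_lt_of (q := fun b => !(exB (fun s => S x p b s) t)) (n := t) (i := b)
    (lt_of_lt_of_le hc (lst_le _ _)) (by
      simp only [Bool.not_eq_true']
      rw [← Bool.not_eq_true, exB_iff]
      rintro ⟨i, _, hi⟩
      exact hb i hi)
  omega

theorem fires_inf (h : Tr S x p) (N : ℕ) : ∃ t, N < t ∧ len S x p (t - 1) < len S x p t := by
  by_contra hc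
  push Not at hc
  obtain ⟨t, ht⟩ := len_unbdd h (len S x p N + 1)
  have key : ∀ k, len S x p (N + k) ≤ len S x p N := by
    intro k
    induction k with
    | zero => exact le_rfl
    | succ k ih => exact (hc (N + (k + 1)) (by omega)).trans ih
  have h1 := key t
  have h2 := len_mono (S := S) (x := x) (p := p) (show t ≤ N + t by omega)
  omega

theorem fires_fin (h : ¬ Tr S x p) :
    ∃ N, ∀ t, N < t → ¬ len S x p (t - 1) < len S x p t := by
  by_contra hc
  push Not at hc
  obtain ⟨B, hB⟩ := len_bdd h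
  have key : ∀ k, ∃ t, k ≤ len S x p t := by
    intro k
    induction k with
    | zero => exact ⟨0, Nat.zero_le _⟩
    | succ k ih =>
      obtain ⟨t, ht⟩ := ih
      obtain ⟨t', h1, h2⟩ := hc t
      refine ⟨t', ?_⟩
      have h3 := len_mono (S := S) (x := x) (p := p) (show t ≤ t' - 1 by omega)
      omega
  obtain ⟨t, ht⟩ := key (B + 1)
  have := hB t
  omega

theorem yy_le (S : ℕ → ℕ → ℕ → ℕ → Bool) (x t : ℕ) : yy S x t ≤ t := lst_le _ _

/-- The lower limit of the sequence is the least true value. -/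
theorem yy_lim (h : ∃ p, Tr S x p) : ∃ b, Tr S x b ∧ (∀ N, ∃ t, N < t ∧ yy S x t = b) ∧
    ∃ N, ∀ t, N < t → b ≤ yy S x t := by
  classical
  have hb := Nat.find_spec h
  have hmin : ∀ q < Nat.find h, ¬ Tr S x q := fun q hq => Nat.find_min h hq
  generalize Nat.find h = b at hb hmin
  have h1 : ∃ N, ∀ t, N < t → b ≤ yy S x t := by
    have h2 : ∀ q, ∃ N, q < b → ∀ t, N < t → ¬ len S x q (t - 1) < len S x q t := by
      intro q
      by_cases hq : q < b
      · obtain ⟨N, hN⟩ := fires_fin (hmin q hq)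
        exact ⟨N, fun _ => hN⟩
      · exact ⟨0, fun h => absurd h hq⟩
    choose N hN using h2
    refine ⟨(Finset.range b).sup N + b, fun t ht => ?_⟩
    by_contra hc
    push Not at hc
    unfold yy at hc
    rcases lst_spec (fun q => decide (len S x q (t - 1) < len S x q t)) t with
      ⟨h3, h4, _⟩ | ⟨h3, _⟩
    · have h5 := Finset.le_sup (f := N) (Finset.mem_range.2 hc)
      exact hN _ hc t (by omega) (of_decide_eq_true h4)
    · omega
  refine ⟨b, hb, fun N => ?_, h1⟩
  obtain ⟨N', hN'⟩ := h1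
  obtain ⟨t, ht, hf⟩ := fires_inf hb (max (max N N') b)
  refine ⟨t, by omega, le_antisymm ?_ (hN' t (by omega))⟩
  exact (lst_lt_of (q := fun q => decide (len S x q (t - 1) < len S x q t)) (n := t) (i := b)
    (by omega) (by simpa using hf)).1

section comp

variable {α : Type*} [Primcodable α]

theorem c_len (hS : Computable fun q : ℕ × ℕ × ℕ × ℕ => S q.1 q.2.1 q.2.2.1 q.2.2.2)
    {f g k : α → ℕ} (hf : Computable f) (hg : Computable g) (hk : Computable k) :
    Computable fun a => len S (f a) (g a) (k a) := by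
  unfold len
  refine c_lst (q := fun (a : α) b => !(exB (fun s => S (f a) (g a) b s) (k a))) ?_ hk
  refine cnot ?_
  refine computable_exB (α := α × ℕ) (q := fun x s => S (f x.1) (g x.1) x.2 s) ?_
    (hk.comp Computable.fst)
  unfold Computable₂
  exact hS.comp (g := fun y : (α × ℕ) × ℕ => (f y.1.1, g y.1.1, y.1.2, y.2)) (by fun_prop)

theorem c_yy (hS : Computable fun q : ℕ × ℕ × ℕ × ℕ => S q.1 q.2.1 q.2.2.1 q.2.2.2)
    {f k : α → ℕ} (hf : Computable f) (hk : Computable k) :
    Computable fun a => yy S (f a) (k a) := by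
  unfold yy
  refine c_lst (q := fun (a : α) p => decide (len S (f a) p (k a - 1) < len S (f a) p (k a))) ?_ hk
  exact c_dlt (c_len hS (by fun_prop) (by fun_prop) (by fun_prop))
    (c_len hS (by fun_prop) (by fun_prop) (by fun_prop))

theorem c_c3 (hS : Computable fun q : ℕ × ℕ × ℕ × ℕ => S q.1 q.2.1 q.2.2.1 q.2.2.2) :
    Computable (c3 (yy S)) := by
  unfold c3 ncl
  refine c_mod (c_cl ?_) (by fun_prop)
  refine c_wd (y := fun (n : ℕ) t => yy S (la n) t) ?_ (by fun_prop)
  exact c_yy hS (c_la (by fun_prop)) (by fun_prop)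

end comp

end Pool.Agent.Helper13g
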