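import Pool.Agent.Helper13g.Grow

/-!
# Growth of the solutions of Hindman's theorem: sums of at most three terms (helper13)
-/

set_option autoImplicit false

namespace Pool.Agent.Helper13g

open Filter Pool.Agent.H645R2.HT Pool.Agent.TH747.HT Pool.Agent.TH747.HS
  Pool.Agent.Helper446 Pool.Agent.Helper446.RE

/-- The parity of the number of visible letters. -/
def s2 (Y : ℕ → ℕ → ℕ) (n : ℕ) : ℕ := (rv [] (wd (Y (la n)) n)).length % 2

theorem rv_above {w : List ℕ} : ∀ {S B : List ℕ}, (∀ z ∈ B, ∀ v ∈ w, z < v) →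
    rv (S ++ B) w = rv S w ++ B := by
  induction w with
  | nil => intro S B _; rfl
  | cons x w ih =>
    intro S B h
    simp only [rv]
    have h1 : B.filter (fun z => decide (z < x)) = B := by
      rw [List.filter_eq_self]
      intro z hz
      simpa using h z hz x (by simp)
    rw [List.filter_append, h1, ← List.cons_append]
    exact ih fun z hz v hv => h z hz v (List.mem_cons_of_mem _ hv)

theorem rv_join {u w : List ℕ} {g : ℕ} (hw : ∀ v ∈ w, g < v) :
    rv [] (u ++ (g :: w)) = rv [] w ++ (g :: (rv [] u).filter (fun z => decide (z < g))) := by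
  rw [rv_append]
  simp only [rv]
  have h := rv_above (w := w) (S := []) (B := g :: (rv [] u).filter (fun z => decide (z < g))) (by
    intro z hz v hv
    have h1 := hw v hv
    simp only [List.mem_cons, List.mem_filter, decide_eq_true_eq] at hz
    omega)
  simpa using h

variable {V : Ultrafilter ℕ}

theorem rel2 (hV : FarU V) {Y : ℕ → ℕ → ℕ} {h : ℕ} (hh : 0 < h)
    (hc1 : Sm V 1 (fun l => c3 Y (h + l) = c3 Y h)) (hc2 : Sm V 2 (fun l => c3 Y (h + l) = c3 Y h))
    {i : ℕ} (hs1 : Sm V 1 (fun l => s2 Y (h + l) = i)) (hs2 : Sm V 2 (fun l => s2 Y (h + l) = i))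
    {b : ℕ} (h1 : ∀ N, ∃ t, N < t ∧ Y (la h) t = b) (h2 : ∃ N, ∀ t, N < t → b ≤ Y (la h) t) :
    (∀ t, mu h < t → b ≤ Y (la h) t) ∧ b ∈ rv [] (wd (Y (la h)) h) := by
  classical
  set y := Y (la h) with hy
  obtain ⟨g, hg1, hg2⟩ : ∃ g, (∀ t, mu h < t → g ≤ y t) ∧ ∃ t, mu h < t ∧ y t = g := by
    have hne : ∃ v, ∃ t, mu h < t ∧ y t = v := ⟨_, mu h + 1, by omega, rfl⟩
    exact ⟨Nat.find hne, fun t ht => Nat.find_min' hne ⟨t, ht, rfl⟩, Nat.find_spec hne⟩
  obtain ⟨r, hr0, hr⟩ := exists_const (U := V) (fun n => cl [b] (wd y n) % 3) 3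
    (Eventually.of_forall fun n => Nat.mod_lt _ (by omega))
  have t1 := cnt_fin hV h1 h2 hr 0
  have t2 := cnt_fin hV h1 h2 hr 1
  obtain ⟨t0, ht0, hyt⟩ := hg2
  have hmn : ∀ n, max t0 (mu h) < la n → mn y (mu h) (la n) = g := by
    intro n hn
    have hsep : Sep h n := by unfold Pool.Agent.H645R2.HT.Sep; omega
    refine le_antisymm ?_ ?_
    · rw [← hyt]; exact mn_le ht0 (by omega)
    · obtain ⟨t', h5, _, h6⟩ := mn_mem (y := y) hsep
      rw [h6]
      exact hg1 t' h5
  have hword : ∀ n, 0 < n → max t0 (mu h) < la n → la (h + n) = la h ∧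
      wd y (h + n) = wd y h ++ (g :: wd y n) := by
    intro n hn0 hn
    have hsep : Sep h n := by unfold Pool.Agent.H645R2.HT.Sep; omega
    exact ⟨la_add hh hsep, by rw [wd_add hh hn0 hsep, hmn n hn]⟩
  have hcol : ∀ n, 0 < n → max t0 (mu h) < la n → c3 Y (h + n) = c3 Y h →
      cl [] (wd y h ++ (g :: wd y n)) % 3 = cl [] (wd y h) % 3 := by
    intro n hn0 hn e
    obtain ⟨e1, e2⟩ := hword n hn0 hn
    unfold c3 ncl at e
    rw [e1, ← hy, e2] at e
    exact e
  have hgb : g ≤ b := by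
    obtain ⟨t, ht, ht'⟩ := h1 (mu h)
    rw [← ht']
    exact hg1 t ht
  have f1 := Sm_far hV (k := 1) (by omega) (max t0 (mu h))
  have f2 := Sm_far hV (k := 2) (by omega) (max t0 (mu h))
  rcases hgb.lt_or_eq with hlt | heq
  · exfalso
    by_cases hε : ∀ᶠ n in (V : Filter ℕ), b ∈ wd y n
    · obtain ⟨n, ⟨a1, a2, -⟩, ⟨a3, a4⟩, a5, a6⟩ :=
        Sm_exists (Sm_and t1 (Sm_and f1 (Sm_and hc1 (Sm_one.2 hε))))
      obtain ⟨m, ⟨b1, b2, b3⟩, ⟨b4, b5⟩, b6⟩ := Sm_exists (Sm_and t2 (Sm_and f2 hc2))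
      have e1 := hcol n a3 a4 a5
      have e2 := hcol m b4 b5 b6
      rw [join_lt hlt a1 a6] at e1
      rw [join_lt hlt b1 (b3 (by omega))] at e2
      split_ifs at e1 e2 <;> omega
    · have hε' : ∀ᶠ n in (V : Filter ℕ), b ∉ wd y n := Ultrafilter.eventually_not.2 hε
      obtain ⟨N, hN⟩ := h2
      obtain ⟨ρ, -, hρ⟩ := exists_const (U := V) (fun n => (rv [] (wd y n)).length % 2) 2
        (Eventually.of_forall fun n => Nat.mod_lt _ (by omega))
      have hge : ∀ n, N < la n → b ∉ wd y n → ∀ v ∈ wd y n, b < v := by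
        intro n hn hb v hv
        obtain ⟨t, ht, e⟩ := mem_wd hv
        have h3 := hN t (by omega)
        rcases h3.lt_or_eq with h4 | h4
        · omega
        · exact absurd (by rw [h4, ← e]; exact hv) hb
      -- one element
      have k1 : ∀ᶠ n in (V : Filter ℕ), s2 Y (h + n) = i := Sm_one.1 hs1
      obtain ⟨n, a1, a2, a3, a4, a5⟩ := (k1.and (hε'.and (hρ.and
        ((hV N).and (hV (max t0 (mu h))))))).exists
      have l1 := hge n a4.2 a2
      obtain ⟨e1, e2⟩ := hword n a5.1 a5.2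
      have e3 : s2 Y (h + n) = ((rv [] (wd y n)).length +
          (g :: (rv [] (wd y h)).filter (fun z => decide (z < g))).length) % 2 := by
        unfold s2
        rw [e1, ← hy, e2, rv_join (fun v hv => hlt.trans (l1 v hv)), List.length_append]
      -- two elements
      have k2 : ∀ᶠ a in (V : Filter ℕ), ∀ᶠ c in (V : Filter ℕ), s2 Y (h + (a + c)) = i := by
        have h3 : ∀ᶠ a in (V : Filter ℕ), Sm V 1 fun c => s2 Y (h + (a + c)) = i := hs2
        filter_upwards [h3] with a ha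
        exact Sm_one.1 ha
      obtain ⟨a, c1, c2, c3', c4⟩ := (k2.and (hε'.and ((hV N).and
        (hV (max t0 (mu h)))))).exists
      obtain ⟨tt, htt1, htt2⟩ := h1 (mu a)
      obtain ⟨c, d1, d2, d3, d4, d5⟩ := (c1.and (hε'.and (hρ.and
        ((hV N).and (hV (max tt (mu a))))))).exists
      have l2 := hge a c3'.2 c2
      have l3 := hge c d4.2 d2
      have hsep : Sep a c := by unfold Pool.Agent.H645R2.HT.Sep; omega
      have hm2 : mn y (mu a) (la c) = b := by
        refine le_antisymm ?_ ?_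
        · rw [← htt2]; exact mn_le htt1 (by omega)
        · obtain ⟨t', h5, _, h6⟩ := mn_mem (y := y) hsep
          rw [h6]
          exact hN t' (by have := la_le_mu c3'.1; omega)
      have w2 : wd y (a + c) = wd y a ++ (b :: wd y c) := by
        rw [wd_add c3'.1 d4.1 hsep, hm2]
      obtain ⟨e4, e5⟩ := hword (a + c) (by omega) (by rw [la_add c3'.1 hsep]; exact c4.2)
      have l4 : ∀ v ∈ wd y (a + c), g < v := by
        intro v hv
        rw [w2, List.mem_append, List.mem_cons] at hv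
        rcases hv with hv | rfl | hv
        · exact hlt.trans (l2 v hv)
        · exact hlt
        · exact hlt.trans (l3 v hv)
      have l5 : (rv [] (wd y (a + c))).length = (rv [] (wd y c)).length + 1 := by
        rw [w2, rv_join l3, List.length_append]
        have h3 : (rv [] (wd y a)).filter (fun z => decide (z < b)) = [] := by
          rw [List.filter_eq_nil_iff]
          intro z hz
          simp only [decide_eq_true_eq]
          rcases rv_sub hz with h4 | h4
          · have := l2 z h4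
            omega
          · simp at h4
        rw [h3]
        rfl
      have e6 : s2 Y (h + (a + c)) = ((rv [] (wd y (a + c))).length +
          (g :: (rv [] (wd y h)).filter (fun z => decide (z < g))).length) % 2 := by
        unfold s2
        rw [e4, ← hy, e5, rv_join l4, List.length_append]
      rw [d1, l5] at e6
      rw [a1] at e3
      omega
  · subst heq
    refine ⟨hg1, ?_⟩
    obtain ⟨n, ⟨a1, a2, -⟩, ⟨a3, a4⟩, a5⟩ := Sm_exists (Sm_and t1 (Sm_and f1 hc1))
    obtain ⟨m, ⟨b1, b2, b3⟩, ⟨b4, b5⟩, b6⟩ := Sm_exists (Sm_and t2 (Sm_and f2 hc2))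
    have e1 := hcol n a3 a4 a5
    have e2 := hcol m b4 b5 b6
    rw [join_eq a1] at e1
    rw [join_eq b1] at e2
    by_contra h6
    rw [if_neg h6] at e1 e2
    omega

variable {S : ℕ → ℕ → ℕ → ℕ → Bool} {X : Set ℕ}

theorem main2 (hS : ∀ x, ∃ p, Tr S x p) (h0 : 0 ∉ X) (hX : ∀ N, ∃ x ∈ X, 3 ^ N ∣ x)
    (hc : ∃ i, ∀ F : Finset ℕ, (F : Set ℕ) ⊆ X → F.Nonempty → F.card ≤ 3 →
      c3 (yy S) (∑ n ∈ F, n) = i)
    (hs : ∃ i, ∀ F : Finset ℕ, (F : Set ℕ) ⊆ X → F.Nonempty → F.card ≤ 3 →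
      s2 (yy S) (∑ n ∈ F, n) = i) {x : ℕ} (hx : x ∈ X) : ∃ p, Tr S (la x) p ∧ p ≤ mu x := by
  obtain ⟨V, hV, hVX⟩ := exists_farU h0 hX
  obtain ⟨i, hi⟩ := hc
  obtain ⟨j, hj⟩ := hs
  obtain ⟨b, hb1, hb2, hb3⟩ := yy_lim (hS (la x))
  have e2 : c3 (yy S) x = i := by
    have h5 := hi {x} (by simpa using hx) (Finset.singleton_nonempty x) (by simp)
    rwa [Finset.sum_singleton] at h5
  have key : ∀ k ≤ 2, ∀ P : ℕ → Prop, (∀ F : Finset ℕ, (F : Set ℕ) ⊆ X → F.Nonempty →
      F.card ≤ 3 → P (∑ n ∈ F, n)) → Sm V k (fun l => P (x + l)) := by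
    intro k hk P hP
    refine Sm_mono ?_ (Sm_mem hV hVX (k := k) x)
    rintro l ⟨G, g1, g2, g3, rfl⟩
    have h4 : x ∉ G := fun h' => absurd (g3 x h') (lt_irrefl _)
    have e := Finset.sum_insert (f := fun x : ℕ => x) h4
    rw [← e]
    refine hP _ ?_ (Finset.insert_nonempty _ _) ?_
    · rw [Finset.coe_insert]
      exact Set.insert_subset hx g1
    · rw [Finset.card_insert_of_notMem h4, g2]
      omega
  have h3 := (rel2 hV (Nat.pos_of_ne_zero fun h => h0 (h ▸ hx))
    (key 1 (by omega) (fun l => c3 (yy S) l = c3 (yy S) x) fun F hF hne hcd => by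
      rw [e2]; exact hi F hF hne hcd)
    (key 2 (by omega) (fun l => c3 (yy S) l = c3 (yy S) x) fun F hF hne hcd => by
      rw [e2]; exact hi F hF hne hcd)
    (key 1 (by omega) (fun l => s2 (yy S) l = j) hj)
    (key 2 (by omega) (fun l => s2 (yy S) l = j) hj) hb2 hb3).2
  refine ⟨b, hb1, ?_⟩
  rcases rv_sub h3 with h4 | h4
  · obtain ⟨t, ht, rfl⟩ := mem_wd' h4
    exact (yy_le _ _ _).trans ht
  · simp at h4

/-- **Growth, sums of at most three elements.** -/
theorem grow2 (hS : ∀ x, ∃ p, Tr S x p) (hX : X.Infinite) (h0 : 0 ∉ X)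
    (hc : ∃ i, ∀ F : Finset ℕ, (F : Set ℕ) ⊆ X → F.Nonempty → F.card ≤ 3 →
      c3 (yy S) (∑ n ∈ F, n) = i)
    (hs : ∃ i, ∀ F : Finset ℕ, (F : Set ℕ) ⊆ X → F.Nonempty → F.card ≤ 3 →
      s2 (yy S) (∑ n ∈ F, n) = i)
    (hb : ∃ i, ∀ F : Finset ℕ, (F : Set ℕ) ⊆ X → F.Nonempty → F.card ≤ 2 →
      dg (la (∑ n ∈ F, n)) (∑ n ∈ F, n) = i)
    {f : ℕ → ℕ} {M n : ℕ} (hf : ∀ x p, M ≤ x → n < 3 ^ (x + 1) → Tr S x p → x + f n ≤ p)
    (hn : M ≤ n) : 3 ^ f n ≤ Nat.nth (· ∈ X) n := by
  have hinj : ∀ x ∈ X, ∀ y ∈ X, x ≠ y → la x ≠ la y := fun x hx y hy hxy =>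
    la_inj h0 hb hx hy hxy
  exact grow_la hX h0 hinj (fun x hx => main2 hS h0 (exists_dvd hX hinj) hc hs hx) hf hn

section comp

variable {α : Type*} [Primcodable α]

theorem rv_foldl (w : List ℕ) : ∀ (B : List ℕ),
    w.foldl (fun (s : List ℕ) x => x :: s.filter (fun z => decide (z < x))) B = rv B w := by
  induction w with
  | nil => intro B; simp [rv]
  | cons x w ih =>
    intro B
    rw [List.foldl_cons, ih]
    simp only [rv]

theorem c_rv {f : α → List ℕ} (hf : Computable f) : Computable fun a => rv [] (f a) := by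
  have h : Computable fun a => (f a).foldl (fun (s : List ℕ) x =>
      x :: s.filter (fun z => decide (z < x))) [] := by
    refine RE.list_foldl (h := fun (_ : α) (p : List ℕ × ℕ) =>
      p.2 :: p.1.filter (fun z => decide (z < p.2))) hf (Computable.const _) ?_
    unfold Computable₂
    exact ccons (by fun_prop) (c_filter (by fun_prop) (by fun_prop))
  exact h.of_eq fun a => rv_foldl _ _

theorem c_s2 (hS : Computable fun q : ℕ × ℕ × ℕ × ℕ => S q.1 q.2.1 q.2.2.1 q.2.2.2) :
    Computable (s2 (yy S)) := by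
  unfold s2
  have h1 : Computable fun n : ℕ => wd (yy S (la n)) n := by
    refine c_wd (y := fun (n : ℕ) t => yy S (la n) t) ?_ (by fun_prop)
    exact c_yy hS (c_la (by fun_prop)) (by fun_prop)
  have h2 : Computable fun n : ℕ => (rv [] (wd (yy S (la n)) n)).length :=
    Computable.list_length.comp (c_rv h1)
  exact c_mod h2 (by fun_prop)

end comp

end Pool.Agent.Helper13g
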